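import Pool.Agent.H750.P.Gen4
import Pool.Agent.H750.P.Theta5
import Pool.Agent.H750.P.Euc4

/-!
# The L-groups of a group ring for different form parameters

Let `R` be a ring with involution, `e = ± 1` and `Λ ≤ Λ'` two form parameters of `R` (in the sense
of Bak: additive subgroups between the elements `a - e a*` and the elements `a` with `a* = -e a`,
closed under `x a x*`). For a group `G` let `Λ.ext G` be the form parameter of the group ring `R[G]`
with the elements `b - e b* + r · 1`, `r ∈ Λ`. For the smallest `Λ` it is the smallest form parameter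
of `R[G]`, so that the L-groups are the quadratic L-groups `L_n^h(R[G])`, the targets of the assembly
maps; if `G` has no elements of order two, every form parameter of `R[G]` is of this form (4).

The theorem determines how the L-groups `L_n(R[G]; Λ.ext G)` depend on `Λ`, for every group `G`.
In even degrees (1) the reduced groups (the kernel of the augmentation) do not depend on `Λ` at all:

  `L_{2k}(R[G]; Λ.ext G) = L_{2k}(R[G]; Λ'.ext G) ×_{L_{2k}(R; Λ')} L_{2k}(R; Λ)`.

In odd degrees (2) the unitary matrices with trivial augmentation are the same for `Λ` and `Λ'`, and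
the kernel of the map of the reduced groups is generated by the classes `k(d, r, g)`, `d ∈ Λ'`,
`r ∈ R`, `g ∈ G`, of the explicit matrices

  `(1 + θ d, θ; -d θ d, 1 - d θ)`,  `θ = r (g - 1) - e (g⁻¹ - 1) r*`,

which are additive in `r` and in `g ∈ H_1(G)`, depend only on `d` modulo `Λ` and vanish if
`r* d r ∈ Λ`. So the kernel is a quotient of a sum of groups `R / R_d ⊗ H_1(G)`.
For the integers and the sign `-1` (degrees `3` modulo `4`) the kernel of
`L_3(ℤ[G]; 2ℤ) → L_3(ℤ[G]; ℤ)` (without passing to the reduced groups) is the group `H_1(G; ℤ/2)`: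
the class of `g` corresponds to the class of the matrix for `d = r = 1` (3).

Outline of the proof. (1) A form over `R[G]` which becomes hyperbolic for the larger form parameter
is, up to a form trivial for the smaller one, obtained from a form `H + diag(r)` over `R`, because the
form parameters of `R[G]` differ only by elements of `R`. (2) `P ↦ P · (i p P)⁻¹`, where `p` is the
augmentation and `i` the inclusion, is an inverse modulo the differences `[g P g⁻¹] - [P]`, `P` of
trivial augmentation, `g` unitary over `(R, Λ')`. The sum of `g` and of a conjugate of `g⁻¹` is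
conjugate to a product of elementary matrices, so we may assume that `g` is a transvection. The
stabilisation of a transvection is, up to unitary matrices for `Λ`, the conjugate `u T u⁻¹` of a
transvection `T` on a new hyperbolic plane by an Eichler transformation `u`. So `[g P g⁻¹] - [P]`
is the class of a conjugate by `T` of the Eichler transformation `u⁻¹ P u P⁻¹`, which is a product of
three factors. Two of them have class zero, and the third is of rank one. The relations between the
classes of these matrices come from commutators of Eichler transformations. (3) For a homomorphism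
`φ : G → {± 1}` and a unitary matrix `M` over `ℤ[G]` let `M₁`, `M₂` be its images under the
augmentation and under `g ↦ φ(g)`, and `N = M₁⁻¹ M₂`, which is `1` modulo `2`. Then
`M ↦ det (1 + (N - 1) (0 ⊕ 1))` is a homomorphism to the units of `ℤ/8` modulo `± 1`, a character of
theta type. It is trivial on the elementary matrices, and nontrivial on the matrix of `g` if
`φ(g) = -1`. The groups may be unreduced since `L_3(ℤ) = 0`: a row of a matrix in the theta group can be
moved to a standard row by elementary matrices.
-/

set_option autoImplicit false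

namespace Pool.Agent.Results.MP_8a3537_gt.FormParameters

open Pool.Agent.H750.P Matrix

universe u v

section general

variable (G : Type u) [Group G] {R : Type v} [Ring R] [StarRing R] {e : ℤˣ}

/-- Enlarging the form parameter, for the even L-groups of the group ring. -/
noncomputable def enl {Λ Λ' : FormParam R e} (h : Λ.carrier ≤ Λ'.carrier) (x : LG (Λ.ext G)) :
    LG (Λ'.ext G) := forget (ext_mono h) x

/-- The augmentation of the even L-groups. -/
noncomputable def augL (Λ : FormParam R e) (x : LG (Λ.ext G)) : LG Λ := (augHom Λ G).L x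

/-- Even degrees: the square of the L-groups given by the augmentation and by enlarging the form
parameter is cartesian and its horizontal maps are surjective. -/
def EvenSquare {Λ Λ' : FormParam R e} (h : Λ.carrier ≤ Λ'.carrier) : Prop :=
  Function.Surjective (enl G h) ∧
    ∀ (y : LG (Λ'.ext G)) (z : LG Λ), augL G Λ' y = forget h z →
      ∃! x : LG (Λ.ext G), enl G h x = y ∧ augL G Λ x = z

/-- The matrix `(1 + θ d, θ; -d θ d, 1 - d θ)`. -/
def mat {A : Type*} [Ring A] (d θ : A) : Matrix (Fin 1 ⊕ Fin 1) (Fin 1 ⊕ Fin 1) A :=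
  fromBlocks (Matrix.of fun _ _ => 1 + θ * d) (Matrix.of fun _ _ => θ)
    (Matrix.of fun _ _ => -(d * θ * d)) (Matrix.of fun _ _ => 1 - d * θ)

variable {G}

/-- The element `c - e c*` for `c = r (g - 1)`. -/
noncomputable def elt (e : ℤˣ) (r : R) (g : G) : MonoidAlgebra R G :=
  (MonoidAlgebra.single g r - MonoidAlgebra.single 1 r) -
    (e : ℤ) • star (MonoidAlgebra.single g r - MonoidAlgebra.single 1 r)

variable (G)

/-- Odd degrees: a unitary matrix of trivial augmentation for the larger form parameter is unitary for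
the smaller one, and its class for the larger one is zero if and only if its class for the smaller one
lies in the group generated by the classes `k d r g` of the explicit matrices of rank one. -/
def OddKernel {Λ Λ' : FormParam R e} (_ : Λ.carrier ≤ Λ'.carrier) : Prop :=
  ∃ k : R → R → G → L1 (Λ.ext G),
    (∀ d ∈ Λ'.carrier, ∀ (r : R) (g : G),
      (∃ P : UG (Λ.ext G) 1, k d r g = L1.mk P ∧ P.val.val = mat (inc R G d) (elt e r g)) ∧
      (∀ r', k d (r + r') g = k d r g + k d r' g) ∧
      (∀ g', k d r (g * g') = k d r g + k d r g') ∧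
      (∀ d', d' - d ∈ Λ.carrier → k d' r g = k d r g) ∧
      (star r * d * r ∈ Λ.carrier → k d r g = 0)) ∧
    ∀ (n : ℕ) (P : (Matrix (Fin n ⊕ Fin n) (Fin n ⊕ Fin n) (MonoidAlgebra R G))ˣ),
      P.val.map (aug R G) = 1 → ∀ h' : P ∈ UG (Λ'.ext G) n, ∃ h : P ∈ UG (Λ.ext G) n,
        (L1.mk ⟨P, h'⟩ = 0 ↔
          L1.mk ⟨P, h⟩ ∈ AddSubgroup.closure {x | ∃ d ∈ Λ'.carrier, ∃ r g, x = k d r g})

end general

/-- For the integers and the sign `-1` the matrices for `d = r = 1` give a homomorphism from the group
whose kernel is the subgroup generated by the squares, and whose image is the kernel of the map of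
the (unreduced) L-groups. -/
def IntKernel (G : Type u) [Group G] : Prop :=
  ∃ k : G →* Multiplicative (L1 (evenP.ext G)),
    (∀ g : G, ∃ Q : UG (evenP.ext G) 1, k g = Multiplicative.ofAdd (L1.mk Q) ∧
      Q.val.val = mat 1 (elt (-1) 1 g)) ∧
    k.ker = Subgroup.closure (Set.range fun h : G => h * h) ∧
    ∀ (n : ℕ) (P : (Matrix (Fin n ⊕ Fin n) (Fin n ⊕ Fin n) (MonoidAlgebra ℤ G))ˣ)
      (h : P ∈ UG (evenP.ext G) n) (h' : P ∈ UG (allP.ext G) n),
      L1.mk ⟨P, h'⟩ = 0 ↔ Multiplicative.ofAdd (L1.mk ⟨P, h⟩) ∈ k.range

theorem mat_kM {A : Type*} [Ring A] (d θ : A) :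
    (kM (Matrix.of fun _ _ => d) (Matrix.of fun _ _ => θ)).val = mat d θ := by
  unfold mat
  change fromBlocks 1 0 (-(Matrix.of fun _ _ => d)) 1 *
    fromBlocks 1 (Matrix.of fun _ _ => θ) 0 1 * fromBlocks 1 0 (Matrix.of fun _ _ => d) 1 = _
  rw [Matrix.fromBlocks_multiply, Matrix.fromBlocks_multiply]
  congr 1
  · ext1 i j
    simp [Matrix.mul_apply, Fin.fin_one_eq_zero]
  · ext1 i j
    simp
  · ext1 i j
    simp [Matrix.mul_apply, Matrix.add_mul, Fin.fin_one_eq_zero]
  · ext1 i j
    simp [Matrix.mul_apply, Fin.fin_one_eq_zero, sub_eq_neg_add]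

theorem result (G : Type u) [Group G] :
    (∀ (R : Type v) [Ring R] [StarRing R] (e : ℤˣ) (Λ Λ' : FormParam R e)
      (h : Λ.carrier ≤ Λ'.carrier), EvenSquare G h ∧ OddKernel G h) ∧
    IntKernel G ∧
    ((∀ g : G, g * g = 1 → g = 1) → ∀ (R : Type v) [Ring R] [StarRing R] (e : ℤˣ)
      (Ω : FormParam (MonoidAlgebra R G) e), ∃! Λ : FormParam R e, Λ.ext G = Ω) := by
  refine ⟨?_, ?_, ?_⟩
  · intro R _ _ e Λ Λ' h
    refine ⟨⟨forget_surjective _, fun y z hyz => square_group h y z hyz⟩,
      fun d r g => kg Λ d r g, ?_, ?_⟩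
    · intro d hd r g
      refine ⟨⟨⟨_, kM_ok (Λ := Λ) (Λ' := Λ') hd (aug_sub' g r)⟩, kk_eq hd (aug_sub' g r), ?_⟩,
        fun r' => kg_add hd r r' g, fun g' => kg_mul h hd r g g',
        fun d' hdd => kg_congr h hd hdd r g, fun hr => kg_zero h hd hr g⟩
      exact mat_kM _ _
    · intro n P hP h'
      have hm : P ∈ UG (Λ.ext G) n := mem_UG_of_one (augHom Λ' G) ext_ker h' (Units.ext hP)
      refine ⟨hm, ?_⟩
      have h1 := kernel_gen h (L1.mk ⟨P, hm⟩) (by
        rw [QHom.L1_mk]
        have h2 : (augHom Λ G).U n ⟨P, hm⟩ = 1 := Subtype.ext (Units.ext hP)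
        rw [h2, L1.mk_one])
      rw [forget1_mk] at h1
      exact h1
  · have hth : ∀ g : G, (kU (MonoidAlgebra.single g 1) : UG (evenP.ext G) 1).val.val =
        mat 1 (elt (-1) 1 g) := by
      intro g
      have h2 := mat_kM (1 : MonoidAlgebra ℤ G) (elt (-1) 1 g)
      rw [← h2]
      change (kM 1 (th (MonoidAlgebra.single g 1))).val = _
      have h3 : (1 : Matrix (Fin 1) (Fin 1) (MonoidAlgebra ℤ G)) = Matrix.of fun _ _ => 1 := by
        ext1 i j
        rw [Fin.fin_one_eq_zero i, Fin.fin_one_eq_zero j, Matrix.one_apply_eq]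
        rfl
      have h4 : th (MonoidAlgebra.single g 1 : MonoidAlgebra ℤ G) =
          Matrix.of fun _ _ => elt (-1) 1 g := by
        ext1 i j
        rw [th_apply, aug_single, inc_apply, Matrix.of_apply]
        unfold elt
        simp
        abel
      rw [h4, ← h3]
    refine ⟨kG G, fun g => ⟨kU (MonoidAlgebra.single g 1), rfl, hth g⟩, ?_, ?_⟩
    · ext g
      rw [MonoidHom.mem_ker, kG_apply, ofAdd_eq_one, kH_zero_iff]
      rfl
    intro n P h h'
    have h1 := kernel_full (L1.mk ⟨P, h⟩ : L1 (evenP.ext G))
    rw [forget1_mk] at h1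
    refine h1.trans ⟨?_, ?_⟩
    · rintro ⟨g, hg⟩
      exact ⟨g, by rw [hg]; rfl⟩
    · rintro ⟨g, hg⟩
      exact ⟨g, by rw [hg]; rfl⟩
  · intro hG R _ _ e Ω
    refine ⟨Ω.res, ext_res hG Ω, ?_⟩
    rintro Λ rfl
    exact (res_ext Λ).symm

end Pool.Agent.Results.MP_8a3537_gt.FormParameters
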