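import Pool.Agent.H751.CH.MedMainQ

/-!
# Actions on CAT(0) cube complexes of any dimension in which no hyperplane crosses its translates

`MedianCube V H`: `V` and `H` are the set of the vertices and the set of the half-spaces of a CAT(0)
cube complex, given by the well known description of these complexes (Sageev, Roller, Chepoi): two
vertices are separated by finitely many half-spaces, and different vertices by at least one; any three
vertices have a median. The complex can have infinite dimension and need not be locally finite.
`Crosses a b`: all four intersections of `a`, `aᶜ` with `b`, `bᶜ` are nonempty.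

`PairClosed C Q`: the class `C` of groups and the property `Q` of pairs (group, subgroup) are invariant
under isomorphisms, `C` contains the groups all of whose finitely generated subgroups are in `C`, and
the groups `K` which act without inversions on trees such that the stabilizers of vertices are in `C`
and the stabilizers `E` of edges are in `C` and satisfy `Q K E` (`TreeActQ`).

Let a group `G` act on a CAT(0) cube complex such that no half-space crosses one of its translates and
no half-space is mapped to its complement. If all subgroups of vertex stabilizers are in `C`, and the
pairs `(K, K ∩ G_h)` have the property `Q` for all subgroups `K` of `G` and the stabilizers `G_h` of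
the half-spaces `h`, then `G` is in `C`. It is not assumed that the stabilizers of half-spaces
are in `C`; this is proved. The number of orbits of hyperplanes is arbitrary, and hyperplanes of
different orbits can cross; the action need be neither proper nor cocompact.

For the L-theoretic conjecture let `C` be the class of the torsion-free groups for which the assembly
map is an isomorphism (for all rings with involution and all `n`), and `Q K E` the property that `E` is
square root closed in `K` (`SqClosed`). By Cappell's theorem the groups `UNil` vanish for a splitting of `K`
over a square root closed subgroup, so that there is a Mayer-Vietoris sequence, and `C`, `Q` is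
closed. This is part (2): the condition on `G` is that `g² h = h` implies `g h = h` for the half-spaces
`h`. If `2` is inverted in the L-groups no condition of this kind is needed.

Outline of the proof. Consider first the case that at most `n` hyperplanes cross pairwise, by
induction on `n`. The stabilizer of a half-space `h` acts on the set of the vertices of `h` which are
adjacent to the complement of `h`; this is a CAT(0) cube complex, whose hyperplanes are the traces of
the hyperplanes which cross `h`, and of smaller dimension. So subgroups of stabilizers of half-spaces
are in `C`. For a finitely generated group and a base point, all but finitely many orbits of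
hyperplanes do not separate the orbit of the base point. The other orbits give a hierarchy: the
stabilizer of a class of vertices which are not separated by the orbits used before acts on the tree
which is dual to the next orbit. The last groups are the stabilizers of vertices. In general it
suffices to consider a finitely generated subgroup `L`; the vertices which are not separated from the
orbit of the base point by hyperplanes that do not separate the orbit form a convex subcomplex with
finitely many `L`-orbits of hyperplanes. It has finite dimension, since hyperplanes of an orbit do not
cross each other.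
-/

set_option autoImplicit false

namespace Pool.Agent.Results.MP_8a3537_gt.NonCrossingCubicalActions

open Pool.Agent.H751.CH

open Pointwise

/-- `E` is square root closed in `K` -/
def SqClosed (K : Type) [Group K] (E : Subgroup K) : Prop := ∀ g : K, g * g ∈ E → g ∈ E

theorem result :
    -- (1) any class `C`, any property `Q` of pairs
    (∀ (C : ∀ (K : Type) [Group K], Prop) (Q : ∀ (K : Type) [Group K], Subgroup K → Prop),
      PairClosed C Q → ∀ (G V : Type) [Group G] [MulAction G V] [Nonempty V] (H : Set (Set V)),
      MedianCube V H → (∀ g : G, ∀ h ∈ H, g • h ∈ H) →
      (∀ g : G, ∀ h ∈ H, ¬ Crosses h (g • h)) → (∀ g : G, ∀ h ∈ H, g • h ≠ hᶜ) →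
      (∀ x : V, ∀ K : Subgroup G, K ≤ MulAction.stabilizer G x → C K) →
      (∀ h ∈ H, ∀ K : Subgroup G, Q K ((MulAction.stabilizer G h).subgroupOf K)) → C G) ∧
    -- (2) square root closed stabilizers of half-spaces
    (∀ (C : ∀ (K : Type) [Group K], Prop),
      (∀ (K L : Type) [Group K] [Group L], Nonempty (K ≃* L) → C K → C L) →
      (∀ (G : Type) [Group G], (∀ L : Subgroup G, L.FG → C L) → C G) →
      (∀ (K : Type) [Group K], TreeActQ C (fun K _ E => C E ∧ SqClosed K E) K → C K) →
      ∀ (G V : Type) [Group G] [MulAction G V] [Nonempty V] (H : Set (Set V)),
      MedianCube V H → (∀ g : G, ∀ h ∈ H, g • h ∈ H) →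
      (∀ g : G, ∀ h ∈ H, ¬ Crosses h (g • h)) → (∀ g : G, ∀ h ∈ H, g • h ≠ hᶜ) →
      (∀ x : V, ∀ K : Subgroup G, K ≤ MulAction.stabilizer G x → C K) →
      (∀ g : G, ∀ h ∈ H, g • g • h = h → g • h = h) → C G) := by
  have key : ∀ (C : ∀ (K : Type) [Group K], Prop)
      (Q : ∀ (K : Type) [Group K], Subgroup K → Prop),
      PairClosed C Q → ∀ (G V : Type) [Group G] [MulAction G V] [Nonempty V] (H : Set (Set V)),
      MedianCube V H → (∀ g : G, ∀ h ∈ H, g • h ∈ H) →
      (∀ g : G, ∀ h ∈ H, ¬ Crosses h (g • h)) → (∀ g : G, ∀ h ∈ H, g • h ≠ hᶜ) →
      (∀ x : V, ∀ K : Subgroup G, K ≤ MulAction.stabilizer G x → C K) →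
      (∀ h ∈ H, ∀ K : Subgroup G, Q K ((MulAction.stabilizer G h).subgroupOf K)) → C G :=
    fun C Q hCQ G V _ _ _ H hH hinv hcross hno hC hQ =>
      med_mainQ hCQ ⟨hH, hinv, hcross, hno⟩ hC hQ
  refine ⟨key, ?_⟩
  intro C hiso hloc htree G V _ _ _ H hH hinv hcross hno hC hsq
  refine key C SqClosed ⟨hiso, ?_, hloc, htree⟩ G V H hH hinv hcross hno hC ?_
  · intro K L _ _ e E hE g hg
    rw [Subgroup.mem_map_equiv] at hg ⊢
    rw [map_mul] at hg
    exact hE _ hg
  · intro h hh K g hg
    rw [Subgroup.mem_subgroupOf, MulAction.mem_stabilizer_iff] at hg ⊢
    apply hsq g.1 h hh
    rw [← mul_smul]
    exact hg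

end Pool.Agent.Results.MP_8a3537_gt.NonCrossingCubicalActions
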